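import Pool.Agent.Helper77_DPB.Var

/-!
Squad DPB (MP_e2cf1f_an): basic lemmas on algebras of sets, charges, indicators and simple
functions.
-/

open Filter Topology Set

namespace Pool.Agent.Helper83_DPB.H77

section Alg

variable {Ω : Type} {B : Set (Set Ω)}

theorem alg_univ (h : IsAlg B) : (univ : Set Ω) ∈ B := by
  have := h.compl ∅ h.empty
  rwa [compl_empty] at this

theorem alg_inter (h : IsAlg B) {b c : Set Ω} (hb : b ∈ B) (hc : c ∈ B) : b ∩ c ∈ B := by
  have := h.compl _ (h.union _ (h.compl _ hb) _ (h.compl _ hc))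
  rwa [compl_union, compl_compl, compl_compl] at this

theorem alg_diff (h : IsAlg B) {b c : Set Ω} (hb : b ∈ B) (hc : c ∈ B) : b \ c ∈ B := by
  rw [diff_eq]
  exact alg_inter h hb (h.compl _ hc)

theorem alg_biUnion (h : IsAlg B) {ι : Type} (F : Finset ι) (b : ι → Set Ω)
    (hb : ∀ i ∈ F, b i ∈ B) : (⋃ i ∈ F, b i) ∈ B := by
  classical
  induction F using Finset.induction_on with
  | empty => simpa using h.empty
  | insert a F ha ih =>
    rw [Finset.set_biUnion_insert]
    exact h.union _ (hb a (Finset.mem_insert_self _ _)) _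
      (ih fun i hi => hb i (Finset.mem_insert_of_mem hi))

theorem alg_pre (h : IsAlg B) {ι : Type} (p : Ω → ι) (hp : ∀ i, p ⁻¹' {i} ∈ B)
    (J : Finset ι) : p ⁻¹' (J : Set ι) ∈ B := by
  have h1 : p ⁻¹' (J : Set ι) = ⋃ i ∈ J, p ⁻¹' {i} := by
    ext t
    simp
  rw [h1]
  exact alg_biUnion h J _ fun i _ => hp i

variable {v : Set Ω → ℝ}

theorem chg_empty (h : IsAlg B) (hv : IsChg B v) : v ∅ = 0 := by
  have := hv.add ∅ h.empty ∅ h.empty (by simp)
  rw [union_self] at this
  linarith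

theorem chg_split (h : IsAlg B) (hv : IsChg B v) {b c : Set Ω} (hb : b ∈ B) (hc : c ∈ B) :
    v b = v (b ∩ c) + v (b \ c) := by
  rw [← hv.add _ (alg_inter h hb hc) _ (alg_diff h hb hc)
    (disjoint_sdiff_right.mono_left inter_subset_right), inter_union_diff]

theorem chg_mono (h : IsAlg B) (hv : IsChg B v) {b c : Set Ω} (hb : b ∈ B) (hc : c ∈ B)
    (hbc : b ⊆ c) : v b ≤ v c := by
  rw [chg_split h hv hc hb, inter_eq_self_of_subset_right hbc]
  have := hv.nonneg _ (alg_diff h hc hb)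
  linarith

theorem chg_union_le (h : IsAlg B) (hv : IsChg B v) {b c : Set Ω} (hb : b ∈ B) (hc : c ∈ B) :
    v (b ∪ c) ≤ v b + v c := by
  have h1 : b ∪ c = b ∪ (c \ b) := by rw [union_diff_self]
  rw [h1, hv.add _ hb _ (alg_diff h hc hb) disjoint_sdiff_right]
  have := chg_mono h hv (alg_diff h hc hb) hc diff_subset
  linarith

theorem chg_sum (h : IsAlg B) (hv : IsChg B v) {ι : Type} (F : Finset ι) (b : ι → Set Ω)
    (hb : ∀ i ∈ F, b i ∈ B) (hd : ∀ i ∈ F, ∀ j ∈ F, i ≠ j → Disjoint (b i) (b j)) :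
    v (⋃ i ∈ F, b i) = ∑ i ∈ F, v (b i) := by
  classical
  induction F using Finset.induction_on with
  | empty => simpa using chg_empty h hv
  | insert a F ha ih =>
    rw [Finset.set_biUnion_insert, Finset.sum_insert ha, hv.add _ (hb a (by simp)) _
      (alg_biUnion h F b fun i hi => hb i (Finset.mem_insert_of_mem hi)) ?_,
      ih (fun i hi => hb i (Finset.mem_insert_of_mem hi))
        (fun i hi j hj => hd i (Finset.mem_insert_of_mem hi) j (Finset.mem_insert_of_mem hj))]
    rw [disjoint_iUnion₂_right]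
    intro i hi
    exact hd a (by simp) i (Finset.mem_insert_of_mem hi) (fun h => ha (h ▸ hi))

theorem chg_fib (h : IsAlg B) (hv : IsChg B v) {ι : Type} [Fintype ι] (p : Ω → ι)
    (hp : ∀ i, p ⁻¹' {i} ∈ B) {b : Set Ω} (hb : b ∈ B) :
    v b = ∑ i, v (p ⁻¹' {i} ∩ b) := by
  rw [← chg_sum h hv Finset.univ (fun i => p ⁻¹' {i} ∩ b)
    (fun i _ => alg_inter h (hp i) hb)]
  · congr 1
    ext t
    simp
  · intro i _ j _ hij
    refine Disjoint.mono inter_subset_left inter_subset_left ?_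
    rw [Set.disjoint_left]
    intro t ht ht'
    exact hij (ht.symm.trans ht')

/-- finite multiplicity bound -/
theorem chg_mult (h : IsAlg B) (hv : IsChg B v) {ι : Type} (F : Finset ι) (b : ι → Set Ω)
    (hb : ∀ i ∈ F, b i ∈ B) : ∀ (R : ℝ) (c : Set Ω), c ∈ B →
    (∀ t ∈ c, ∑ i ∈ F, (b i).indicator (fun _ => (1 : ℝ)) t ≤ R) →
    ∑ i ∈ F, v (b i ∩ c) ≤ R * v c := by
  classical
  induction F using Finset.induction_on with
  | empty =>
    intro R c hc hR
    rw [Finset.sum_empty]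
    rcases c.eq_empty_or_nonempty with rfl | ⟨t, ht⟩
    · rw [chg_empty h hv, mul_zero]
    · have := hR t ht
      rw [Finset.sum_empty] at this
      exact mul_nonneg this (hv.nonneg _ hc)
  | insert a F ha ih =>
    intro R c hc hR
    have hba : b a ∈ B := hb a (by simp)
    have hbF : ∀ i ∈ F, b i ∈ B := fun i hi => hb i (Finset.mem_insert_of_mem hi)
    have h1 := ih hbF (R - 1) (c ∩ b a) (alg_inter h hc hba) (fun t ht => by
      have := hR t ht.1
      rw [Finset.sum_insert ha, indicator_of_mem ht.2] at this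
      linarith)
    have h2 := ih hbF R (c \ b a) (alg_diff h hc hba) (fun t ht => by
      have := hR t ht.1
      rw [Finset.sum_insert ha, indicator_of_notMem ht.2] at this
      linarith)
    have h3 : ∑ i ∈ F, v (b i ∩ c) =
        ∑ i ∈ F, v (b i ∩ (c ∩ b a)) + ∑ i ∈ F, v (b i ∩ (c \ b a)) := by
      rw [← Finset.sum_add_distrib]
      refine Finset.sum_congr rfl fun i hi => ?_
      rw [chg_split h hv (alg_inter h (hbF i hi) hc) hba, inter_assoc, inter_diff_assoc]
    rw [Finset.sum_insert ha, h3, inter_comm (b a) c, chg_split h hv hc hba]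
    linarith

end Alg

section Fun

variable {Ω A : Type} [NormedAddCommGroup A] [NormedSpace ℂ A]

theorem ind_ex (S : BFS Ω A) {b : Set Ω} (hb : b ∈ S.B) :
    ∃ e : A, ∀ t, S.ev e t = b.indicator (fun _ => (1 : ℂ)) t := by
  obtain ⟨o, ho⟩ := S.one_ex
  obtain ⟨e, he⟩ := S.cut_ex b hb o
  refine ⟨e, fun t => ?_⟩
  rw [he t]
  by_cases ht : t ∈ b
  · rw [indicator_of_mem ht, indicator_of_mem ht, ho]
  · rw [indicator_of_notMem ht, indicator_of_notMem ht]

theorem ind_norm (S : BFS Ω A) {b : Set Ω} {e : A}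
    (he : ∀ t, S.ev e t = b.indicator (fun _ => (1 : ℂ)) t) : ‖e‖ ≤ 1 :=
  S.le_ev e 1 zero_le_one fun t => by
    rw [he]
    by_cases ht : t ∈ b
    · rw [indicator_of_mem ht, norm_one]
    · rw [indicator_of_notMem ht, norm_zero]
      exact zero_le_one

theorem ind_le_vr (S : BFS Ω A) (f : A →L[ℂ] ℂ) {b : Set Ω} {e : A}
    (he : ∀ t, S.ev e t = b.indicator (fun _ => (1 : ℂ)) t) : ‖f e‖ ≤ vr S f b :=
  le_vr S f b e (ind_norm S he) fun t ht => by rw [he, indicator_of_notMem ht]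

/-- value of a functional on an almost simple function -/
theorem simple_le (S : BFS Ω A) (f : A →L[ℂ] ℂ) {b : Set Ω} (hb : b ∈ S.B) {y : A}
    (hy : ‖y‖ ≤ 1) (hs : ∀ t ∉ b, S.ev y t = 0) {ε : ℝ} (hε : 0 < ε) :
    ∃ (n : ℕ) (p : Ω → Fin n) (e : Fin n → A), (∀ i, p ⁻¹' {i} ∈ S.B) ∧
      (∀ i t, S.ev (e i) t = (p ⁻¹' {i} ∩ b).indicator (fun _ => (1 : ℂ)) t) ∧
      ‖f y‖ ≤ (1 + ε) * ∑ i, ‖f (e i)‖ + ‖f‖ * ε := by
  obtain ⟨n, p, z, hp, hz⟩ := S.approx y ε hε
  have hex : ∀ i, ∃ e : A, ∀ t, S.ev e t = (p ⁻¹' {i} ∩ b).indicator (fun _ => (1 : ℂ)) t :=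
    fun i => ind_ex S (alg_inter S.alg (hp i) hb)
  choose e he using hex
  refine ⟨n, p, e, hp, he, ?_⟩
  have hev : ∀ t, S.ev (∑ i, z i • e i) t = b.indicator (fun t => z (p t)) t := by
    intro t
    rw [map_sum, Finset.sum_apply, Finset.sum_eq_single (p t)]
    · rw [map_smul, Pi.smul_apply, he, smul_eq_mul]
      by_cases ht : t ∈ b
      · rw [indicator_of_mem ht, indicator_of_mem (show t ∈ p ⁻¹' {p t} ∩ b from ⟨rfl, ht⟩),
          mul_one]
      · rw [indicator_of_notMem ht, indicator_of_notMem (fun h => ht h.2), mul_zero]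
    · intro i _ hi
      rw [map_smul, Pi.smul_apply, he, indicator_of_notMem (fun h => hi h.1.symm), smul_zero]
    · intro h
      exact absurd (Finset.mem_univ _) h
  have h1 : ‖y - ∑ i, z i • e i‖ ≤ ε := by
    refine S.le_ev _ ε hε.le fun t => ?_
    rw [map_sub, Pi.sub_apply, hev]
    by_cases ht : t ∈ b
    · rw [indicator_of_mem ht]
      exact hz t
    · rw [indicator_of_notMem ht, hs t ht, sub_zero, norm_zero]
      exact hε.le
  have h2 : ‖f (∑ i, z i • e i)‖ ≤ (1 + ε) * ∑ i, ‖f (e i)‖ := by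
    rw [map_sum, Finset.mul_sum]
    refine (norm_sum_le _ _).trans (Finset.sum_le_sum fun i _ => ?_)
    rw [map_smul, norm_smul]
    rcases (p ⁻¹' {i} ∩ b).eq_empty_or_nonempty with h0 | ⟨t, ht⟩
    · have : e i = 0 := ev_ext S _ _ fun t => by rw [he, h0]; simp
      rw [this, map_zero, norm_zero, mul_zero, mul_zero]
    · refine mul_le_mul_of_nonneg_right ?_ (norm_nonneg _)
      have h3 := hz t
      rw [show p t = i from ht.1] at h3
      have h4 := norm_sub_norm_le (z i) (S.ev y t)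
      have h5 := ev_norm_of S y t hy
      rw [norm_sub_rev] at h4
      linarith
  have h3 : f y = f (∑ i, z i • e i) + f (y - ∑ i, z i • e i) := by
    rw [map_sub]
    ring
  rw [h3]
  refine (norm_add_le _ _).trans (add_le_add h2 ?_)
  exact (f.le_opNorm _).trans (mul_le_mul_of_nonneg_left h1 (norm_nonneg _))

end Fun

end Pool.Agent.Helper83_DPB.H77
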