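import Pool.Agent.Helper83_DPB.Stmts

/-!
Squad DPB (MP_e2cf1f_an), module FC: smallness on subspaces of finite codimension.
-/

open Filter Topology Set

namespace Pool.Agent.Helper83_DPB.H77

theorem fc : FcStmt := by
  intro X _ _ _ T hdense hns G ε hε
  classical
  by_contra hcon
  push Not at hcon
  apply hns
  -- the subspace of the common zeros
  let M : Submodule ℂ X := ⨅ g ∈ G, LinearMap.ker (g : X →ₗ[ℂ] ℂ)
  have hmemM : ∀ w, w ∈ M ↔ ∀ g ∈ G, g w = 0 := by
    intro w
    simp [M]
  have hMcl : IsClosed (M : Set X) := by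
    have : (M : Set X) = ⋂ g ∈ G, {w | g w = 0} := by
      ext w
      simp [hmemM]
    rw [this]
    exact isClosed_biInter fun g _ => isClosed_eq g.continuous continuous_const
  have hlow : ∀ w ∈ M, ε * ‖w‖ ≤ ‖T w‖ := by
    intro w hw
    rcases eq_or_ne w 0 with rfl | h0
    · simp
    have hn : 0 < ‖w‖ := norm_pos_iff.2 h0
    have h1 := hcon (((‖w‖⁻¹ : ℝ) : ℂ) • w)
      (by rw [norm_smul, Complex.norm_real, norm_inv, norm_norm, inv_mul_cancel₀ hn.ne'])
      (fun g hg => by rw [map_smul, (hmemM w).1 hw g hg, smul_zero])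
    rw [map_smul, norm_smul, Complex.norm_real, norm_inv, norm_norm] at h1
    rw [← le_div_iff₀ hn, div_eq_inv_mul]
    exact h1
  -- the image is closed
  have hTM : IsClosed ((M.map (T : X →ₗ[ℂ] X) : Submodule ℂ X) : Set X) := by
    have hcompl : CompleteSpace M := hMcl.completeSpace_coe
    let TM : M →L[ℂ] X := T.comp M.subtypeL
    have hanti : AntilipschitzWith (Real.toNNReal ε⁻¹) TM := by
      refine ContinuousLinearMap.antilipschitz_of_bound TM fun w => ?_
      rw [Real.coe_toNNReal _ (by positivity)]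
      have := hlow w w.2
      calc ‖w‖ = ε⁻¹ * (ε * ‖(w : X)‖) := by
            rw [← mul_assoc, inv_mul_cancel₀ hε.ne', one_mul]
            rfl
        _ ≤ ε⁻¹ * ‖TM w‖ := mul_le_mul_of_nonneg_left this (by positivity)
    have h1 := hanti.isClosed_range TM.uniformContinuous
    have h2 : ((M.map (T : X →ₗ[ℂ] X) : Submodule ℂ X) : Set X) = range TM := by
      ext y
      constructor
      · rintro ⟨w, hw, rfl⟩
        exact ⟨⟨w, hw⟩, rfl⟩
      · rintro ⟨w, rfl⟩
        exact ⟨w, w.2, rfl⟩
    rw [h2]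
    exact h1
  -- a finite dimensional complement
  obtain ⟨N, hN⟩ := Submodule.exists_isCompl M
  have hfd : FiniteDimensional ℂ (X ⧸ M) := by
    let Φ : X →ₗ[ℂ] (G → ℂ) := LinearMap.pi fun g => ((g : X →L[ℂ] ℂ) : X →ₗ[ℂ] ℂ)
    have hker : LinearMap.ker Φ = M := by
      ext w
      rw [hmemM, LinearMap.mem_ker]
      constructor
      · intro h g hg
        exact congrFun h ⟨g, hg⟩
      · intro h
        funext g
        exact h g.1 g.2
    rw [← hker]
    exact Φ.quotKerEquivRange.symm.finiteDimensional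
  have hNfd : FiniteDimensional ℂ N :=
    (Submodule.quotientEquivOfIsCompl M N hN).finiteDimensional
  have hsup : M.map (T : X →ₗ[ℂ] X) ⊔ N.map (T : X →ₗ[ℂ] X) = LinearMap.range (T : X →ₗ[ℂ] X) := by
    rw [← Submodule.map_sup, hN.sup_eq_top, Submodule.map_top]
  have hcl : IsClosed ((LinearMap.range (T : X →ₗ[ℂ] X) : Submodule ℂ X) : Set X) := by
    rw [← hsup]
    have : FiniteDimensional ℂ (N.map (T : X →ₗ[ℂ] X)) := inferInstance
    exact Submodule.isClosed_sup_finiteDimensional _ (N.map (T : X →ₗ[ℂ] X)) hTM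
  have hr : range T = univ := by
    have h1 : closure (range T) = univ := hdense.closure_range
    have h2 : closure (range T) = range T := by
      refine IsClosed.closure_eq ?_
      exact hcl
    rw [← h2, h1]
  exact range_eq_univ.1 hr

end Pool.Agent.Helper83_DPB.H77
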