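import Pool.Agent.Helper83_DPB.Stmts

/-!
Squad DPB (MP_e2cf1f_an), module NS: an operator which is a limit of invertible ones and is not
invertible is not surjective.
-/

open Filter Topology Set

namespace Pool.Agent.Helper83_DPB.H77

theorem ns : NsStmt := by
  intro X _ _ _ T hT hμ hsurj
  have hinj : ¬ Function.Injective T := fun h =>
    hT (ContinuousLinearMap.isUnit_iff_bijective.2 ⟨h, hsurj⟩)
  have hker : ∃ n : X, n ≠ 0 ∧ T n = 0 := by
    by_contra hcon
    push Not at hcon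
    refine hinj ((injective_iff_map_eq_zero T).2 fun a ha => ?_)
    by_contra h0
    exact hcon a h0 ha
  obtain ⟨n, hn0, hn⟩ := hker
  obtain ⟨C, hC, hpre⟩ := T.exists_preimage_norm_le hsurj
  obtain ⟨μ, hμ0, hμn, hu⟩ := hμ (1 / (4 * C)) (by positivity)
  choose P hP1 hP2 using hpre
  let x : ℕ → X := fun k => Nat.rec n (fun _ y => P (μ • y)) k
  have hx0 : x 0 = n := rfl
  have hxs : ∀ k, x (k + 1) = P (μ • x k) := fun k => rfl
  have hTx : ∀ k, T (x (k + 1)) = μ • x k := fun k => by rw [hxs, hP1]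
  have hb : ∀ k, ‖x k‖ ≤ ‖n‖ * (1 / 4) ^ k := by
    intro k
    induction k with
    | zero => simp [hx0]
    | succ k ih =>
      rw [hxs]
      refine (hP2 _).trans ?_
      rw [norm_smul]
      have h1 : C * ‖μ‖ ≤ 1 / 4 := by
        have h2 : C * ‖μ‖ ≤ C * (1 / (4 * C)) := mul_le_mul_of_nonneg_left hμn.le hC.le
        have h3 : C * (1 / (4 * C)) = 1 / 4 := by field_simp
        linarith
      calc C * (‖μ‖ * ‖x k‖) = C * ‖μ‖ * ‖x k‖ := by ring
        _ ≤ 1 / 4 * (‖n‖ * (1 / 4) ^ k) :=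
          mul_le_mul h1 ih (norm_nonneg _) (by norm_num)
        _ = ‖n‖ * (1 / 4) ^ (k + 1) := by ring
  have hgs : Summable fun k => ‖n‖ * (1 / 4 : ℝ) ^ k :=
    (summable_geometric_of_lt_one (by norm_num) (by norm_num)).mul_left _
  have hsum : Summable x := Summable.of_norm_bounded hgs hb
  have hsum' : Summable fun k => x (k + 1) := (summable_nat_add_iff 1).2 hsum
  have hT1 : T (∑' k, x k) = μ • ∑' k, x k := by
    have hs2 : Summable fun k => T (x k) := hsum.map T T.continuous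
    rw [T.map_tsum hsum, hs2.tsum_eq_zero_add, hx0, hn, zero_add, ← hsum.tsum_const_smul μ]
    exact tsum_congr hTx
  have hne : ∑' k, x k ≠ 0 := by
    intro h0
    rw [hsum.tsum_eq_zero_add, hx0] at h0
    have h1 : ‖∑' k, x (k + 1)‖ ≤ ‖n‖ / 3 := by
      have h2 : ∀ k, ‖x (k + 1)‖ ≤ ‖n‖ / 4 * (1 / 4) ^ k := fun k => by
        refine (hb (k + 1)).trans_eq ?_
        ring
      have h3 : HasSum (fun k => ‖n‖ / 4 * (1 / 4 : ℝ) ^ k) (‖n‖ / 4 * (1 - 1 / 4)⁻¹) :=
        (hasSum_geometric_of_lt_one (by norm_num) (by norm_num)).mul_left _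
      refine (tsum_of_norm_bounded h3 h2).trans_eq ?_
      ring
    have h4 : n = -∑' k, x (k + 1) := eq_neg_of_add_eq_zero_left h0
    have h5 : ‖n‖ = ‖∑' k, x (k + 1)‖ := by
      conv_lhs => rw [h4]
      rw [norm_neg]
    have h6 : 0 < ‖n‖ := norm_pos_iff.2 hn0
    linarith
  have hbij := ContinuousLinearMap.isUnit_iff_bijective.1 hu
  apply hne
  apply hbij.1
  rw [map_zero]
  change T (∑' k, x k) - μ • (∑' k, x k) = 0
  rw [hT1, sub_self]

end Pool.Agent.Helper83_DPB.H77
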