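import Pool.Agent.Helper77_DPB.Basic

/-!
Squad DPB (MP_e2cf1f_an), module PAR: zero sum averages with small norm.
-/

open Filter Topology Set

namespace Pool.Agent.Helper83_DPB.H77

variable {Ω A : Type} [NormedAddCommGroup A] [NormedSpace ℂ A]

/-- functionals dominated by L times m -/
def Dmt (S : BFS Ω A) (m : Set Ω → ℝ) (L : ℝ) (g : A →L[ℂ] ℂ) : Prop :=
  ∀ b ∈ S.B, vr S g b ≤ L * m b

/-- the quadratic sums over partitions -/
def QS (S : BFS Ω A) (m : Set Ω → ℝ) (g : A →L[ℂ] ℂ) : Set ℝ :=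
  {r | ∃ (ι : Type) (_ : Fintype ι) (p : Ω → ι) (e : ι → A), (∀ i, p ⁻¹' {i} ∈ S.B) ∧
    (∀ i t, S.ev (e i) t = (p ⁻¹' {i}).indicator (fun _ => (1 : ℂ)) t) ∧
    r = ∑ i, ‖g (e i)‖ ^ 2 / m (p ⁻¹' {i})}

noncomputable def QQ (S : BFS Ω A) (m : Set Ω → ℝ) (g : A →L[ℂ] ℂ) : ℝ := sSup (QS S m g)

theorem dmt_val {S : BFS Ω A} {m : Set Ω → ℝ} {L : ℝ} {g : A →L[ℂ] ℂ} (hg : Dmt S m L g)
    {b : Set Ω} (hb : b ∈ S.B) {e : A}
    (he : ∀ t, S.ev e t = b.indicator (fun _ => (1 : ℂ)) t) : ‖g e‖ ≤ L * m b :=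
  (ind_le_vr S g he).trans (hg b hb)

theorem dmt_zero {S : BFS Ω A} {m : Set Ω → ℝ} {L : ℝ} {g : A →L[ℂ] ℂ} (hg : Dmt S m L g)
    {b : Set Ω} (hb : b ∈ S.B) {e : A}
    (he : ∀ t, S.ev e t = b.indicator (fun _ => (1 : ℂ)) t) (h0 : m b = 0) : ‖g e‖ = 0 := by
  have := dmt_val hg hb he
  rw [h0, mul_zero] at this
  exact le_antisymm this (norm_nonneg _)

theorem QS_le {S : BFS Ω A} {m : Set Ω → ℝ} (hm : IsChg S.B m) {L : ℝ} {g : A →L[ℂ] ℂ}
    (hg : Dmt S m L g) {r : ℝ} (hr : r ∈ QS S m g) : r ≤ L ^ 2 * m univ := by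
  obtain ⟨ι, _, p, e, hp, he, rfl⟩ := hr
  rw [chg_fib S.alg hm p hp (alg_univ S.alg), Finset.mul_sum]
  refine Finset.sum_le_sum fun i _ => ?_
  rw [inter_univ]
  rcases (hm.nonneg _ (hp i)).eq_or_lt with h0 | h0
  · rw [← h0, div_zero, mul_zero]
  · rw [div_le_iff₀ h0]
    have h1 := dmt_val hg (hp i) (he i)
    have h2 : ‖g (e i)‖ ^ 2 ≤ (L * m (p ⁻¹' {i})) ^ 2 :=
      pow_le_pow_left₀ (norm_nonneg _) h1 2
    calc ‖g (e i)‖ ^ 2 ≤ (L * m (p ⁻¹' {i})) ^ 2 := h2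
      _ = L ^ 2 * m (p ⁻¹' {i}) * m (p ⁻¹' {i}) := by ring

theorem QS_bdd {S : BFS Ω A} {m : Set Ω → ℝ} (hm : IsChg S.B m) {L : ℝ} {g : A →L[ℂ] ℂ}
    (hg : Dmt S m L g) : BddAbove (QS S m g) :=
  ⟨L ^ 2 * m univ, fun _ hr => QS_le hm hg hr⟩

theorem QS_nonneg {S : BFS Ω A} {m : Set Ω → ℝ} (hm : IsChg S.B m) {g : A →L[ℂ] ℂ} {r : ℝ}
    (hr : r ∈ QS S m g) : 0 ≤ r := by
  obtain ⟨ι, _, p, e, hp, he, rfl⟩ := hr
  exact Finset.sum_nonneg fun i _ => div_nonneg (sq_nonneg _) (hm.nonneg _ (hp i))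

theorem QS_ne (S : BFS Ω A) (m : Set Ω → ℝ) (g : A →L[ℂ] ℂ) : (QS S m g).Nonempty := by
  have h1 : ∀ i : Unit, (fun _ : Ω => ()) ⁻¹' {i} = (univ : Set Ω) := by
    intro i
    ext t
    simp
  obtain ⟨e, he⟩ := ind_ex S (alg_univ S.alg)
  refine ⟨_, Unit, inferInstance, fun _ => (), fun _ => e, fun i => ?_, fun i t => ?_, rfl⟩
  · rw [h1]
    exact alg_univ S.alg
  · rw [h1]
    exact he t

theorem QQ_nonneg {S : BFS Ω A} {m : Set Ω → ℝ} (hm : IsChg S.B m) (g : A →L[ℂ] ℂ) :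
    0 ≤ QQ S m g :=
  Real.sSup_nonneg fun _ hr => QS_nonneg hm hr

theorem QQ_le {S : BFS Ω A} {m : Set Ω → ℝ} (hm : IsChg S.B m) {L : ℝ} {g : A →L[ℂ] ℂ}
    (hg : Dmt S m L g) : QQ S m g ≤ L ^ 2 * m univ :=
  csSup_le (QS_ne S m g) fun _ hr => QS_le hm hg hr

theorem sedr {ι : Type} (s : Finset ι) (x w : ι → ℝ)
    (hw : ∀ i ∈ s, 0 ≤ w i) (h0 : ∀ i ∈ s, w i = 0 → x i = 0) :
    (∑ i ∈ s, x i) ^ 2 ≤ (∑ i ∈ s, x i ^ 2 / w i) * ∑ i ∈ s, w i := by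
  refine Finset.sum_sq_le_sum_mul_sum_of_sq_le_mul s
    (fun i hi => div_nonneg (sq_nonneg _) (hw i hi)) hw fun i hi => ?_
  refine le_of_eq ?_
  rcases eq_or_ne (w i) 0 with h | h
  · rw [h0 i hi h, h]
    simp
  · field_simp

/-- refinement of partitions -/
theorem QS_refine {S : BFS Ω A} {m : Set Ω → ℝ} (hm : IsChg S.B m) {L : ℝ} {g : A →L[ℂ] ℂ}
    (hg : Dmt S m L g) {ι κ : Type} [Fintype ι] [Fintype κ] (q : Ω → κ) (π : κ → ι)
    (e : ι → A) (e' : κ → A) (hq : ∀ k, q ⁻¹' {k} ∈ S.B)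
    (hp : ∀ i, (fun t => π (q t)) ⁻¹' {i} ∈ S.B)
    (he : ∀ i t, S.ev (e i) t =
      ((fun t => π (q t)) ⁻¹' {i}).indicator (fun _ => (1 : ℂ)) t)
    (he' : ∀ k t, S.ev (e' k) t = (q ⁻¹' {k}).indicator (fun _ => (1 : ℂ)) t) :
    ∑ i, ‖g (e i)‖ ^ 2 / m ((fun t => π (q t)) ⁻¹' {i}) ≤
      ∑ k, ‖g (e' k)‖ ^ 2 / m (q ⁻¹' {k}) := by
  classical
  rw [← Finset.sum_fiberwise Finset.univ π (fun k => ‖g (e' k)‖ ^ 2 / m (q ⁻¹' {k}))]
  refine Finset.sum_le_sum fun i _ => ?_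
  have h1 : e i = ∑ k ∈ Finset.univ.filter (fun k => π k = i), e' k := by
    refine ev_ext S _ _ fun t => ?_
    rw [he, map_sum, Finset.sum_apply]
    by_cases ht : π (q t) = i
    · rw [indicator_of_mem (show t ∈ (fun t => π (q t)) ⁻¹' {i} from ht),
        Finset.sum_eq_single_of_mem (q t) (by simp [ht])]
      · rw [he', indicator_of_mem (show t ∈ q ⁻¹' {q t} from rfl)]
      · intro k _ hk
        rw [he', indicator_of_notMem (fun h => hk h.symm)]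
    · rw [indicator_of_notMem (show t ∉ (fun t => π (q t)) ⁻¹' {i} from ht)]
      symm
      refine Finset.sum_eq_zero fun k hk => ?_
      rw [he', indicator_of_notMem]
      intro h
      have h' : q t = k := h
      exact ht (by rw [h']; exact (Finset.mem_filter.1 hk).2)
  have h2 : m ((fun t => π (q t)) ⁻¹' {i}) =
      ∑ k ∈ Finset.univ.filter (fun k => π k = i), m (q ⁻¹' {k}) := by
    rw [← chg_sum S.alg hm _ (fun k => q ⁻¹' {k}) (fun k _ => hq k)]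
    · congr 1
      ext t
      simp
    · intro k _ l _ hkl
      rw [Set.disjoint_left]
      intro t ht ht'
      exact hkl (ht.symm.trans ht')
  have hx : ‖g (e i)‖ ≤ ∑ k ∈ Finset.univ.filter (fun k => π k = i), ‖g (e' k)‖ := by
    rw [h1, map_sum]
    exact norm_sum_le _ _
  have h3 := sedr (Finset.univ.filter (fun k => π k = i)) (fun k => ‖g (e' k)‖)
    (fun k => m (q ⁻¹' {k})) (fun k _ => hm.nonneg _ (hq k))
    (fun k _ h0 => dmt_zero hg (hq k) (he' k) h0)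
  rw [h2]
  have hn : 0 ≤ ∑ k ∈ Finset.univ.filter (fun k => π k = i), m (q ⁻¹' {k}) :=
    Finset.sum_nonneg fun k _ => hm.nonneg _ (hq k)
  rcases hn.eq_or_lt with h0 | h0
  · rw [← h0, div_zero]
    exact Finset.sum_nonneg fun k _ => div_nonneg (sq_nonneg _) (hm.nonneg _ (hq k))
  · rw [div_le_iff₀ h0]
    exact (pow_le_pow_left₀ (norm_nonneg _) hx 2).trans h3

theorem QQ_par {S : BFS Ω A} {m : Set Ω → ℝ} (hm : IsChg S.B m) {L : ℝ} {g h : A →L[ℂ] ℂ}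
    (hg : Dmt S m L g) (hh : Dmt S m L h) {M : ℝ} (hgh : Dmt S m M (g + h))
    (hgh' : Dmt S m M (g - h)) :
    QQ S m (g + h) + QQ S m (g - h) ≤ 2 * QQ S m g + 2 * QQ S m h := by
  have key : ∀ r ∈ QS S m (g + h), ∀ r' ∈ QS S m (g - h),
      r + r' ≤ 2 * QQ S m g + 2 * QQ S m h := by
    rintro _ ⟨ι, _, p, e, hp, he, rfl⟩ _ ⟨κ, _, q, d, hq, hd, rfl⟩
    have hpq : ∀ i : ι × κ, (fun t => (p t, q t)) ⁻¹' {i} ∈ S.B := by
      rintro ⟨i, k⟩
      have : (fun t => (p t, q t)) ⁻¹' {(i, k)} = p ⁻¹' {i} ∩ q ⁻¹' {k} := by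
        ext t
        simp
      rw [this]
      exact alg_inter S.alg (hp i) (hq k)
    have hex : ∀ i : ι × κ, ∃ c : A, ∀ t, S.ev c t =
        ((fun t => (p t, q t)) ⁻¹' {i}).indicator (fun _ => (1 : ℂ)) t :=
      fun i => ind_ex S (hpq i)
    choose c hc using hex
    have h1 := QS_refine hm hgh (fun t => (p t, q t)) Prod.fst e c hpq hp he hc
    have h2 := QS_refine hm hgh' (fun t => (p t, q t)) Prod.snd d c hpq hq hd hc
    have h3 : ∑ i, ‖g (c i)‖ ^ 2 / m ((fun t => (p t, q t)) ⁻¹' {i}) ≤ QQ S m g :=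
      le_csSup (QS_bdd hm hg) ⟨ι × κ, inferInstance, fun t => (p t, q t), c, hpq, hc, rfl⟩
    have h4 : ∑ i, ‖h (c i)‖ ^ 2 / m ((fun t => (p t, q t)) ⁻¹' {i}) ≤ QQ S m h :=
      le_csSup (QS_bdd hm hh) ⟨ι × κ, inferInstance, fun t => (p t, q t), c, hpq, hc, rfl⟩
    have h5 : ∑ i, ‖(g + h) (c i)‖ ^ 2 / m ((fun t => (p t, q t)) ⁻¹' {i}) +
        ∑ i, ‖(g - h) (c i)‖ ^ 2 / m ((fun t => (p t, q t)) ⁻¹' {i}) =
        2 * ∑ i, ‖g (c i)‖ ^ 2 / m ((fun t => (p t, q t)) ⁻¹' {i}) +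
        2 * ∑ i, ‖h (c i)‖ ^ 2 / m ((fun t => (p t, q t)) ⁻¹' {i}) := by
      rw [Finset.mul_sum, Finset.mul_sum, ← Finset.sum_add_distrib, ← Finset.sum_add_distrib]
      refine Finset.sum_congr rfl fun i _ => ?_
      have hpar := parallelogram_law_with_norm ℝ (g (c i)) (h (c i))
      have e1 : (g + h) (c i) = g (c i) + h (c i) := rfl
      have e2 : (g - h) (c i) = g (c i) - h (c i) := rfl
      rw [e1, e2]
      rw [← add_div, ← mul_div_assoc, ← mul_div_assoc, ← add_div]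
      congr 1
      nlinarith [hpar]
    have h1' : ∑ i, ‖(g + h) (e i)‖ ^ 2 / m (p ⁻¹' {i}) ≤
        ∑ i, ‖(g + h) (c i)‖ ^ 2 / m ((fun t => (p t, q t)) ⁻¹' {i}) := h1
    have h2' : ∑ i, ‖(g - h) (d i)‖ ^ 2 / m (q ⁻¹' {i}) ≤
        ∑ i, ‖(g - h) (c i)‖ ^ 2 / m ((fun t => (p t, q t)) ⁻¹' {i}) := h2
    linarith
  have h1 : ∀ r' ∈ QS S m (g - h), QQ S m (g + h) ≤ 2 * QQ S m g + 2 * QQ S m h - r' := by
    intro r' hr'
    refine csSup_le (QS_ne S m _) fun r hr => ?_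
    have := key r hr r' hr'
    linarith
  have h2 : QQ S m (g - h) ≤ 2 * QQ S m g + 2 * QQ S m h - QQ S m (g + h) := by
    refine csSup_le (QS_ne S m _) fun r hr => ?_
    have := h1 r hr
    linarith
  linarith

theorem QQ_half {S : BFS Ω A} {m : Set Ω → ℝ} (hm : IsChg S.B m) {M : ℝ} {g : A →L[ℂ] ℂ}
    (hg : Dmt S m M g) : 4 * QQ S m ((1 / 2 : ℂ) • g) ≤ QQ S m g := by
  have h1 : QQ S m ((1 / 2 : ℂ) • g) ≤ QQ S m g / 4 := by
    refine csSup_le (QS_ne S m _) ?_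
    rintro _ ⟨ι, _, p, e, hp, he, rfl⟩
    have h2 : ∑ i, ‖g (e i)‖ ^ 2 / m (p ⁻¹' {i}) ≤ QQ S m g :=
      le_csSup (QS_bdd hm hg) ⟨ι, inferInstance, p, e, hp, he, rfl⟩
    have h3 : ∑ i, ‖((1 / 2 : ℂ) • g) (e i)‖ ^ 2 / m (p ⁻¹' {i}) =
        (∑ i, ‖g (e i)‖ ^ 2 / m (p ⁻¹' {i})) / 4 := by
      rw [Finset.sum_div]
      refine Finset.sum_congr rfl fun i _ => ?_
      have e1 : ((1 / 2 : ℂ) • g) (e i) = (1 / 2 : ℂ) * g (e i) := rfl
      rw [e1, norm_mul, mul_pow, norm_div, norm_one, Complex.norm_ofNat]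
      ring
    rw [h3]
    linarith
  linarith

theorem norm_le_QQ {S : BFS Ω A} {m : Set Ω → ℝ} (hm : IsChg S.B m) {L : ℝ} {g : A →L[ℂ] ℂ}
    (hg : Dmt S m L g) : ‖g‖ ^ 2 ≤ m univ * QQ S m g := by
  have hR0 : 0 ≤ m univ * QQ S m g :=
    mul_nonneg (hm.nonneg _ (alg_univ S.alg)) (QQ_nonneg hm g)
  have h1 : ‖g‖ ≤ Real.sqrt (m univ * QQ S m g) := by
    rw [← vr_univ S g]
    refine vr_le S g univ _ fun y hy hs => ?_
    refine le_of_forall_pos_le_add fun δ hδ => ?_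
    set R : ℝ := Real.sqrt (m univ * QQ S m g) with hR
    have hRn : 0 ≤ R := Real.sqrt_nonneg _
    have hgn : 0 ≤ ‖g‖ := norm_nonneg g
    obtain ⟨n, p, e, hp, he, hle⟩ := simple_le S g (alg_univ S.alg) hy hs
      (show 0 < δ / (R + ‖g‖ + 1) by positivity)
    have he' : ∀ i t, S.ev (e i) t = (p ⁻¹' {i}).indicator (fun _ => (1 : ℂ)) t := by
      intro i t
      rw [he, inter_univ]
    have h2 : ∑ i, ‖g (e i)‖ ≤ R := by
      refine Real.le_sqrt_of_sq_le ?_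
      have h3 := sedr Finset.univ (fun i => ‖g (e i)‖) (fun i => m (p ⁻¹' {i}))
        (fun i _ => hm.nonneg _ (hp i)) (fun i _ h0 => dmt_zero hg (hp i) (he' i) h0)
      have h4 : ∑ i, m (p ⁻¹' {i}) = m univ := by
        rw [chg_fib S.alg hm p hp (alg_univ S.alg)]
        exact Finset.sum_congr rfl fun i _ => by rw [inter_univ]
      have h5 : ∑ i, ‖g (e i)‖ ^ 2 / m (p ⁻¹' {i}) ≤ QQ S m g :=
        le_csSup (QS_bdd hm hg) ⟨Fin n, inferInstance, p, e, hp, he', rfl⟩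
      calc (∑ i, ‖g (e i)‖) ^ 2
          ≤ (∑ i, ‖g (e i)‖ ^ 2 / m (p ⁻¹' {i})) * ∑ i, m (p ⁻¹' {i}) := h3
        _ ≤ QQ S m g * m univ := by
          rw [h4]
          exact mul_le_mul_of_nonneg_right h5 (hm.nonneg _ (alg_univ S.alg))
        _ = m univ * QQ S m g := mul_comm _ _
    have h6 : (1 + δ / (R + ‖g‖ + 1)) * ∑ i, ‖g (e i)‖ ≤ (1 + δ / (R + ‖g‖ + 1)) * R :=
      mul_le_mul_of_nonneg_left h2 (by positivity)
    have h7 : δ / (R + ‖g‖ + 1) * (R + ‖g‖) ≤ δ := by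
      rw [div_mul_eq_mul_div, div_le_iff₀ (by positivity)]
      nlinarith
    have h8 : (1 + δ / (R + ‖g‖ + 1)) * R + ‖g‖ * (δ / (R + ‖g‖ + 1)) =
        R + δ / (R + ‖g‖ + 1) * (R + ‖g‖) := by ring
    linarith
  calc ‖g‖ ^ 2 ≤ Real.sqrt (m univ * QQ S m g) ^ 2 :=
        pow_le_pow_left₀ (norm_nonneg _) h1 2
    _ = m univ * QQ S m g := Real.sq_sqrt hR0

theorem vr_sum_le (S : BFS Ω A) (I : Finset ℕ) (α : ℕ → ℝ) (hα : ∀ i, 0 ≤ α i)
    (g : ℕ → (A →L[ℂ] ℂ)) (b : Set Ω) :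
    vr S (∑ i ∈ I, (α i : ℂ) • g i) b ≤ ∑ i ∈ I, α i * vr S (g i) b := by
  classical
  induction I using Finset.induction_on with
  | empty =>
    rw [Finset.sum_empty, Finset.sum_empty]
    refine vr_le S _ b _ fun y _ _ => ?_
    simp
  | insert a I ha ih =>
    rw [Finset.sum_insert ha, Finset.sum_insert ha]
    refine (vr_add_le S _ _ b).trans (add_le_add ?_ ih)
    rw [vr_smul, Complex.norm_real, Real.norm_eq_abs, abs_of_nonneg (hα a)]

/-- weights of convex combinations of the tails -/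
def Wt (N : ℕ) (I : Finset ℕ) (α : ℕ → ℝ) : Prop :=
  (∀ i ∈ I, N ≤ i) ∧ (∀ i, 0 ≤ α i) ∧ (∀ i, i ∉ I → α i = 0) ∧ ∑ i ∈ I, α i = 1

/-- convex combination -/
noncomputable def cmb (g : ℕ → (A →L[ℂ] ℂ)) (I : Finset ℕ) (α : ℕ → ℝ) : A →L[ℂ] ℂ :=
  ∑ i ∈ I, (α i : ℂ) • g i

theorem cmb_dmt {S : BFS Ω A} {m : Set Ω → ℝ} {L : ℝ} {g : ℕ → (A →L[ℂ] ℂ)}
    (hg : ∀ n, Dmt S m L (g n)) {N : ℕ} {I : Finset ℕ} {α : ℕ → ℝ} (hW : Wt N I α) :
    Dmt S m L (cmb g I α) := by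
  intro b hb
  refine (vr_sum_le S I α hW.2.1 g b).trans ?_
  calc ∑ i ∈ I, α i * vr S (g i) b ≤ ∑ i ∈ I, α i * (L * m b) :=
        Finset.sum_le_sum fun i _ => mul_le_mul_of_nonneg_left (hg i b hb) (hW.2.1 i)
    _ = L * m b := by rw [← Finset.sum_mul, hW.2.2.2, one_mul]

theorem cmb_ext (g : ℕ → (A →L[ℂ] ℂ)) {N : ℕ} {I J : Finset ℕ} {α : ℕ → ℝ} (hW : Wt N I α)
    (hIJ : I ⊆ J) : cmb g I α = cmb g J α := by
  unfold cmb
  refine Finset.sum_subset hIJ fun i _ hi => ?_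
  rw [hW.2.2.1 i hi]
  refine ContinuousLinearMap.ext fun y => ?_
  change ((0 : ℝ) : ℂ) * g i y = 0
  rw [Complex.ofReal_zero, zero_mul]

theorem par : ParStmt := by
  intro Ω A _ _ S m L g hm hL hg η hη N0
  classical
  have hg' : ∀ n, Dmt S m L (g n) := hg
  have hu0 : 0 ≤ m univ := hm.nonneg _ (alg_univ S.alg)
  set VS : ℕ → Set ℝ := fun N => {r | ∃ I α, Wt N I α ∧ r = QQ S m (cmb g I α)} with hVS
  have hne : ∀ N, (VS N).Nonempty := by
    intro N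
    refine ⟨_, {N}, fun i => if i = N then 1 else 0, ⟨?_, ?_, ?_, ?_⟩, rfl⟩
    · intro i hi
      exact (Finset.mem_singleton.1 hi).ge
    · intro i
      dsimp only
      split_ifs
      · exact zero_le_one
      · exact le_rfl
    · intro i hi
      exact if_neg fun h => hi (Finset.mem_singleton.2 h)
    · simp
  have hbb : ∀ N, BddBelow (VS N) := by
    intro N
    refine ⟨0, ?_⟩
    rintro _ ⟨I, α, _, rfl⟩
    exact QQ_nonneg hm _
  set D : ℕ → ℝ := fun N => sInf (VS N) with hD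
  have hDmono : ∀ N N', N ≤ N' → D N ≤ D N' := by
    intro N N' h
    refine csInf_le_csInf (hbb N) (hne N') ?_
    rintro _ ⟨I, α, hW, rfl⟩
    exact ⟨I, α, ⟨fun i hi => h.trans (hW.1 i hi), hW.2⟩, rfl⟩
  have hDle : ∀ N, D N ≤ L ^ 2 * m univ := by
    intro N
    obtain ⟨_, I, α, hW, rfl⟩ := hne N
    exact (csInf_le (hbb N) ⟨I, α, hW, rfl⟩).trans (QQ_le hm (cmb_dmt hg' hW))
  have hDbdd : BddAbove (range D) := by
    refine ⟨L ^ 2 * m univ, ?_⟩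
    rintro _ ⟨N, rfl⟩
    exact hDle N
  set s : ℝ := η ^ 2 / (6 * (m univ + 1)) with hs
  have hs0 : 0 < s := by positivity
  obtain ⟨_, ⟨N1, rfl⟩, hN1⟩ := exists_lt_of_lt_csSup (range_nonempty D)
    (show sSup (range D) - s < sSup (range D) by linarith)
  set N := max N0 N1 with hN
  have hDN : sSup (range D) - s < D N := lt_of_lt_of_le hN1 (hDmono _ _ (le_max_right _ _))
  obtain ⟨_, ⟨I, α, hI, rfl⟩, hIlt⟩ := exists_lt_of_csInf_lt (hne N)
    (show sInf (VS N) < D N + s by simp only [hD]; linarith)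
  set N' := max N (I.sup id + 1) with hN'
  obtain ⟨_, ⟨K, β, hK, rfl⟩, hKlt⟩ := exists_lt_of_csInf_lt (hne N')
    (show sInf (VS N') < D N' + s by simp only [hD]; linarith)
  have hDN' : D N' ≤ sSup (range D) := le_csSup hDbdd ⟨N', rfl⟩
  have hKN : Wt N K β := ⟨fun i hi => (le_max_left _ _).trans (hK.1 i hi), hK.2⟩
  have hId := cmb_dmt hg' hI
  have hKd := cmb_dmt hg' hK
  have hadd : Dmt S m (2 * L) (cmb g I α + cmb g K β) := by
    intro b hb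
    have h1 := vr_add_le S (cmb g I α) (cmb g K β) b
    have h2 := hId b hb
    have h3 := hKd b hb
    linarith
  have hsub : Dmt S m (2 * L) (cmb g I α - cmb g K β) := by
    intro b hb
    have h1 := vr_add_le S (cmb g I α) ((-1 : ℂ) • cmb g K β) b
    have h2 := hId b hb
    have h3 := hKd b hb
    have e1 : cmb g I α + (-1 : ℂ) • cmb g K β = cmb g I α - cmb g K β := by
      refine ContinuousLinearMap.ext fun y => ?_
      change cmb g I α y + (-1 : ℂ) * cmb g K β y = cmb g I α y - cmb g K β y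
      ring
    rw [vr_smul, norm_neg, norm_one, one_mul, e1] at h1
    linarith
  have hpar := QQ_par hm hId hKd hadd hsub
  have hhalf := QQ_half hm hadd
  have hmid : D N ≤ QQ S m ((1 / 2 : ℂ) • (cmb g I α + cmb g K β)) := by
    refine csInf_le (hbb N) ⟨I ∪ K, fun i => (α i + β i) / 2, ⟨?_, ?_, ?_, ?_⟩, ?_⟩
    · intro i hi
      rcases Finset.mem_union.1 hi with h | h
      · exact hI.1 i h
      · exact hKN.1 i h
    · intro i
      have := hI.2.1 i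
      have := hK.2.1 i
      positivity
    · intro i hi
      rw [Finset.notMem_union] at hi
      dsimp only
      rw [hI.2.2.1 i hi.1, hK.2.2.1 i hi.2]
      norm_num
    · have h1 : ∑ i ∈ I ∪ K, α i = 1 := by
        rw [← hI.2.2.2]
        exact (Finset.sum_subset Finset.subset_union_left fun i _ hi => hI.2.2.1 i hi).symm
      have h2 : ∑ i ∈ I ∪ K, β i = 1 := by
        rw [← hK.2.2.2]
        exact (Finset.sum_subset Finset.subset_union_right fun i _ hi => hK.2.2.1 i hi).symm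
      rw [← Finset.sum_div, Finset.sum_add_distrib, h1, h2]
      norm_num
    · congr 1
      rw [cmb_ext g hI (Finset.subset_union_left : I ⊆ I ∪ K),
        cmb_ext g hK (Finset.subset_union_right : K ⊆ I ∪ K)]
      unfold cmb
      rw [← Finset.sum_add_distrib, Finset.smul_sum]
      refine Finset.sum_congr rfl fun i _ => ?_
      refine ContinuousLinearMap.ext fun y => ?_
      change (1 / 2 : ℂ) * ((α i : ℂ) * g i y + (β i : ℂ) * g i y) =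
        (((α i + β i) / 2 : ℝ) : ℂ) * g i y
      push_cast
      ring
  have hQ : QQ S m (cmb g I α - cmb g K β) ≤ 6 * s := by
    linarith
  have hnorm := norm_le_QQ hm hsub
  have hfin : ‖cmb g I α - cmb g K β‖ ^ 2 ≤ η ^ 2 := by
    calc ‖cmb g I α - cmb g K β‖ ^ 2 ≤ m univ * QQ S m (cmb g I α - cmb g K β) := hnorm
      _ ≤ (m univ + 1) * (6 * s) := by
        refine mul_le_mul (by linarith) hQ (QQ_nonneg hm _) (by linarith)
      _ = η ^ 2 := by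
        rw [hs]
        field_simp
  refine ⟨I, K, α, β, fun i hi => (le_max_left _ _).trans (hI.1 i hi),
    fun i hi => (le_max_left _ _).trans (hKN.1 i hi), ?_, hI.2.1, hK.2.1, hI.2.2.2,
    hK.2.2.2, ?_⟩
  · rw [Finset.disjoint_left]
    intro i hi hi'
    have h1 : I.sup id + 1 ≤ i := (le_max_right _ _).trans (hK.1 i hi')
    have h2 : i ≤ I.sup id := Finset.le_sup (f := id) hi
    omega
  · exact (pow_le_pow_iff_left₀ (norm_nonneg _) hη.le two_ne_zero).1 hfin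

end Pool.Agent.Helper83_DPB.H77
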