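import Pool.Agent.Helper83_DPB.Stmts

/-!
Squad DPB (MP_e2cf1f_an), module SUB: pointwise convergent subsequences of functionals.
-/

open Filter Topology Set

namespace Pool.Agent.Helper83_DPB.H77

theorem sub : SubStmt := by
  intro A X _ _ _ _ J hJ ψ C hC hA
  obtain ⟨x, hx⟩ := hJ
  have hC0 : 0 ≤ C := (norm_nonneg _).trans (hC 0)
  have hcomp : IsCompact (Set.univ.pi fun i : ℕ => Metric.closedBall (0 : ℂ) (C * ‖x i‖)) :=
    isCompact_univ_pi fun i => isCompact_closedBall _ _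
  obtain ⟨a, -, κ, hκ, hlim⟩ := hcomp.tendsto_subseq (x := fun n i => ψ n (x i)) (fun n i _ => by
    rw [mem_closedBall_zero_iff]
    exact ((ψ n).le_opNorm _).trans (mul_le_mul_of_nonneg_right (hC n) (norm_nonneg _)))
  refine ⟨κ, hκ, ?_⟩
  have hxi : ∀ i, Tendsto (fun n => ψ (κ n) (x i)) atTop (𝓝 (a i)) := fun i =>
    (tendsto_pi_nhds.1 hlim) i
  have hspan : ∀ y ∈ Submodule.span ℂ (Set.range x), ∃ l : ℂ,
      Tendsto (fun n => ψ (κ n) y) atTop (𝓝 l) := by
    intro y hy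
    induction hy using Submodule.span_induction with
    | mem y h =>
      obtain ⟨i, rfl⟩ := h
      exact ⟨a i, hxi i⟩
    | zero => exact ⟨0, by simp⟩
    | add y z _ _ hy hz =>
      obtain ⟨l, hl⟩ := hy
      obtain ⟨l', hl'⟩ := hz
      exact ⟨l + l', by simpa only [map_add] using hl.add hl'⟩
    | smul c y _ hy =>
      obtain ⟨l, hl⟩ := hy
      exact ⟨c • l, by simpa only [map_smul] using hl.const_smul c⟩
  intro z
  have hcau : CauchySeq fun n => ψ (κ n) z := by
    rw [Metric.cauchySeq_iff']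
    intro ε hε
    obtain ⟨y, hy, b, hb⟩ := hx z (ε / (4 * (C + 1))) (by positivity)
    obtain ⟨l, hl⟩ := hspan y hy
    have hl2 : Tendsto (fun n => ψ (κ n) (y + J b)) atTop (𝓝 (l + 0)) := by
      simp only [map_add]
      exact hl.add ((hA b).comp hκ.tendsto_atTop)
    obtain ⟨N, hN⟩ := Metric.cauchySeq_iff'.1 hl2.cauchySeq (ε / 4) (by linarith)
    refine ⟨N, fun n hn => ?_⟩
    have h1 := hN n hn
    rw [dist_eq_norm] at h1 ⊢
    have h2 : ∀ k, ‖ψ (κ k) (z - y - J b)‖ ≤ ε / 4 := by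
      intro k
      refine ((ψ (κ k)).le_opNorm _).trans ?_
      calc ‖ψ (κ k)‖ * ‖z - y - J b‖ ≤ (C + 1) * (ε / (4 * (C + 1))) :=
            mul_le_mul ((hC _).trans (by linarith)) hb.le (norm_nonneg _) (by linarith)
        _ = ε / 4 := by field_simp
    have h3 : ψ (κ n) z - ψ (κ N) z = (ψ (κ n) (y + J b) - ψ (κ N) (y + J b)) +
        (ψ (κ n) (z - y - J b) - ψ (κ N) (z - y - J b)) := by
      simp only [map_add, map_sub]
      ring
    rw [h3]
    have h4 := norm_add_le (ψ (κ n) (y + J b) - ψ (κ N) (y + J b))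
      (ψ (κ n) (z - y - J b) - ψ (κ N) (z - y - J b))
    have h5 := norm_sub_le (ψ (κ n) (z - y - J b)) (ψ (κ N) (z - y - J b))
    have h6 := h2 n
    have h7 := h2 N
    linarith
  exact cauchySeq_tendsto_of_complete hcau

end Pool.Agent.Helper83_DPB.H77
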