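import Pool.Agent.Helper83_DPB.Stmts

/-!
Squad DPB (MP_e2cf1f_an), module VAR: basic facts on the variation.
-/

open Filter Topology Set

namespace Pool.Agent.Helper83_DPB.H77

variable {Ω A : Type} [NormedAddCommGroup A] [NormedSpace ℂ A]

theorem vr_bdd (S : BFS Ω A) (f : A →L[ℂ] ℂ) (b : Set Ω) :
    BddAbove {r : ℝ | ∃ y : A, ‖y‖ ≤ 1 ∧ (∀ t ∉ b, S.ev y t = 0) ∧ r = ‖f y‖} := by
  refine ⟨‖f‖, ?_⟩
  rintro _ ⟨y, hy, -, rfl⟩
  refine (f.le_opNorm y).trans ?_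
  exact mul_le_of_le_one_right (norm_nonneg _) hy

theorem vr_ne (S : BFS Ω A) (f : A →L[ℂ] ℂ) (b : Set Ω) :
    {r : ℝ | ∃ y : A, ‖y‖ ≤ 1 ∧ (∀ t ∉ b, S.ev y t = 0) ∧ r = ‖f y‖}.Nonempty :=
  ⟨‖f 0‖, 0, by simp, fun t _ => by simp, rfl⟩

theorem le_vr (S : BFS Ω A) (f : A →L[ℂ] ℂ) (b : Set Ω) (y : A) (hy : ‖y‖ ≤ 1)
    (hs : ∀ t ∉ b, S.ev y t = 0) : ‖f y‖ ≤ vr S f b :=
  le_csSup (vr_bdd S f b) ⟨y, hy, hs, rfl⟩

theorem vr_le (S : BFS Ω A) (f : A →L[ℂ] ℂ) (b : Set Ω) (C : ℝ)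
    (h : ∀ y : A, ‖y‖ ≤ 1 → (∀ t ∉ b, S.ev y t = 0) → ‖f y‖ ≤ C) : vr S f b ≤ C := by
  refine csSup_le (vr_ne S f b) ?_
  rintro _ ⟨y, hy, hs, rfl⟩
  exact h y hy hs

theorem vr_nonneg (S : BFS Ω A) (f : A →L[ℂ] ℂ) (b : Set Ω) : 0 ≤ vr S f b :=
  (norm_nonneg _).trans (le_vr S f b 0 (by simp) (fun t _ => by simp))

theorem vr_norm (S : BFS Ω A) (f : A →L[ℂ] ℂ) (b : Set Ω) : vr S f b ≤ ‖f‖ :=
  vr_le S f b _ fun y hy _ =>
    (f.le_opNorm y).trans (mul_le_of_le_one_right (norm_nonneg _) hy)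

theorem vr_mul (S : BFS Ω A) (f : A →L[ℂ] ℂ) (b : Set Ω) (y : A)
    (hs : ∀ t ∉ b, S.ev y t = 0) : ‖f y‖ ≤ vr S f b * ‖y‖ := by
  rcases eq_or_ne y 0 with rfl | h0
  · simp
  have hn : 0 < ‖y‖ := norm_pos_iff.2 h0
  have h1 := le_vr S f b (((‖y‖⁻¹ : ℝ) : ℂ) • y)
    (by rw [norm_smul, Complex.norm_real, norm_inv, norm_norm, inv_mul_cancel₀ hn.ne'])
    (fun t ht => by rw [map_smul, Pi.smul_apply, hs t ht, smul_zero])
  rw [map_smul, norm_smul, Complex.norm_real, norm_inv, norm_norm] at h1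
  rw [← div_le_iff₀ hn, div_eq_inv_mul]
  exact h1

theorem vr_univ (S : BFS Ω A) (f : A →L[ℂ] ℂ) : vr S f univ = ‖f‖ := by
  refine le_antisymm (vr_norm S f _) ?_
  refine f.opNorm_le_bound (vr_nonneg S f _) fun y => ?_
  exact vr_mul S f univ y (fun t ht => absurd (mem_univ t) ht)

theorem vr_add_le (S : BFS Ω A) (f g : A →L[ℂ] ℂ) (b : Set Ω) :
    vr S (f + g) b ≤ vr S f b + vr S g b :=
  vr_le S _ b _ fun y hy hs => by
    rw [ContinuousLinearMap.add_apply]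
    exact (norm_add_le _ _).trans (add_le_add (le_vr S f b y hy hs) (le_vr S g b y hy hs))

theorem vr_smul_le (S : BFS Ω A) (c : ℂ) (f : A →L[ℂ] ℂ) (b : Set Ω) :
    vr S (c • f) b ≤ ‖c‖ * vr S f b :=
  vr_le S _ b _ fun y hy hs => by
    rw [ContinuousLinearMap.smul_apply, norm_smul]
    exact mul_le_mul_of_nonneg_left (le_vr S f b y hy hs) (norm_nonneg _)

theorem vr_smul (S : BFS Ω A) (c : ℂ) (f : A →L[ℂ] ℂ) (b : Set Ω) :
    vr S (c • f) b = ‖c‖ * vr S f b := by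
  refine le_antisymm (vr_smul_le S c f b) ?_
  rcases eq_or_ne c 0 with rfl | hc
  · rw [norm_zero, zero_mul]
    exact vr_nonneg _ _ _
  have h := vr_smul_le S c⁻¹ (c • f) b
  rw [smul_smul, inv_mul_cancel₀ hc, one_smul, norm_inv] at h
  have hn : 0 < ‖c‖ := norm_pos_iff.2 hc
  calc ‖c‖ * vr S f b ≤ ‖c‖ * (‖c‖⁻¹ * vr S (c • f) b) :=
        mul_le_mul_of_nonneg_left h hn.le
    _ = vr S (c • f) b := by rw [← mul_assoc, mul_inv_cancel₀ hn.ne', one_mul]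

theorem exists_phase (z : ℂ) : ∃ u : ℂ, ‖u‖ = 1 ∧ u * z = ((‖z‖ : ℝ) : ℂ) := by
  rcases eq_or_ne z 0 with rfl | hz
  · exact ⟨1, by simp, by simp⟩
  have hn : 0 < ‖z‖ := norm_pos_iff.2 hz
  refine ⟨(‖z‖ : ℂ) / z, ?_, ?_⟩
  · rw [norm_div, Complex.norm_real, norm_norm, div_self hn.ne']
  · rw [div_mul_cancel₀ _ hz]

theorem ev_norm_of (S : BFS Ω A) (y : A) (t : Ω) (hy : ‖y‖ ≤ 1) : ‖S.ev y t‖ ≤ 1 :=
  (S.ev_le y t).trans hy

/-- evaluations determine the element -/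
theorem ev_ext (S : BFS Ω A) (y z : A) (h : ∀ t, S.ev y t = S.ev z t) : y = z := by
  have : ‖y - z‖ ≤ 0 := S.le_ev (y - z) 0 le_rfl fun t => by
    rw [map_sub, Pi.sub_apply, h t, sub_self, norm_zero]
  exact sub_eq_zero.1 (norm_le_zero_iff.1 this)

/-- sum of two elements with disjoint supports in the unit ball -/
theorem norm_add_disj (S : BFS Ω A) (b c : Set Ω) (hbc : Disjoint b c) (y z : A) (C : ℝ)
    (hC : 0 ≤ C) (hy : ∀ t, ‖S.ev y t‖ ≤ C) (hz : ∀ t, ‖S.ev z t‖ ≤ C)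
    (hys : ∀ t ∉ b, S.ev y t = 0) (hzs : ∀ t ∉ c, S.ev z t = 0) : ‖y + z‖ ≤ C := by
  refine S.le_ev _ C hC fun t => ?_
  rw [map_add, Pi.add_apply]
  by_cases ht : t ∈ b
  · rw [hzs t (fun h => Set.disjoint_left.1 hbc ht h), add_zero]
    exact hy t
  · rw [hys t ht, zero_add]
    exact hz t

theorem vr_add (S : BFS Ω A) (f : A →L[ℂ] ℂ) (b c : Set Ω) (hb : b ∈ S.B)
    (hbc : Disjoint b c) : vr S f (b ∪ c) = vr S f b + vr S f c := by
  refine le_antisymm ?_ ?_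
  · refine vr_le S f _ _ fun y hy hs => ?_
    obtain ⟨y', hy'⟩ := S.cut_ex b hb y
    have h1 : ‖y'‖ ≤ 1 := S.le_ev _ 1 zero_le_one fun t => by
      rw [hy']
      by_cases ht : t ∈ b
      · rw [indicator_of_mem ht]
        exact ev_norm_of S y t hy
      · rw [indicator_of_notMem ht, norm_zero]
        exact zero_le_one
    have h2 : ‖y - y'‖ ≤ 1 := S.le_ev _ 1 zero_le_one fun t => by
      rw [map_sub, Pi.sub_apply, hy']
      by_cases ht : t ∈ b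
      · rw [indicator_of_mem ht, sub_self, norm_zero]
        exact zero_le_one
      · rw [indicator_of_notMem ht, sub_zero]
        exact ev_norm_of S y t hy
    have h3 : f y = f y' + f (y - y') := by rw [map_sub]; ring
    rw [h3]
    refine (norm_add_le _ _).trans (add_le_add ?_ ?_)
    · refine le_vr S f b y' h1 fun t ht => ?_
      rw [hy', indicator_of_notMem ht]
    · refine le_vr S f c _ h2 fun t ht => ?_
      rw [map_sub, Pi.sub_apply, hy']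
      by_cases htb : t ∈ b
      · rw [indicator_of_mem htb, sub_self]
      · rw [indicator_of_notMem htb, sub_zero]
        exact hs t (fun h => h.elim htb ht)
  · have key : ∀ y z : A, ‖y‖ ≤ 1 → (∀ t ∉ b, S.ev y t = 0) → ‖z‖ ≤ 1 →
        (∀ t ∉ c, S.ev z t = 0) → ‖f y‖ + ‖f z‖ ≤ vr S f (b ∪ c) := by
      intro y z hy hys hz hzs
      obtain ⟨u, hu, hu'⟩ := exists_phase (f y)
      obtain ⟨v, hv, hv'⟩ := exists_phase (f z)
      have hn : ‖u • y + v • z‖ ≤ 1 := by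
        refine norm_add_disj S b c hbc _ _ 1 zero_le_one (fun t => ?_) (fun t => ?_)
          (fun t ht => ?_) (fun t ht => ?_)
        · rw [map_smul, Pi.smul_apply, norm_smul, hu, one_mul]
          exact ev_norm_of S y t hy
        · rw [map_smul, Pi.smul_apply, norm_smul, hv, one_mul]
          exact ev_norm_of S z t hz
        · rw [map_smul, Pi.smul_apply, hys t ht, smul_zero]
        · rw [map_smul, Pi.smul_apply, hzs t ht, smul_zero]
      have h := le_vr S f (b ∪ c) (u • y + v • z) hn (fun t ht => by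
        rw [map_add, Pi.add_apply, map_smul, map_smul, Pi.smul_apply, Pi.smul_apply,
          hys t (fun h => ht (Or.inl h)), hzs t (fun h => ht (Or.inr h))]
        simp)
      rw [map_add, map_smul, map_smul, smul_eq_mul, smul_eq_mul, hu', hv',
        ← Complex.ofReal_add, Complex.norm_real, Real.norm_eq_abs,
        abs_of_nonneg (by positivity)] at h
      exact h
    have h1 : ∀ z : A, ‖z‖ ≤ 1 → (∀ t ∉ c, S.ev z t = 0) →
        vr S f b ≤ vr S f (b ∪ c) - ‖f z‖ := by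
      intro z hz hzs
      refine vr_le S f b _ fun y hy hys => ?_
      have := key y z hy hys hz hzs
      linarith
    have h2 : vr S f c ≤ vr S f (b ∪ c) - vr S f b := by
      refine vr_le S f c _ fun z hz hzs => ?_
      have := h1 z hz hzs
      linarith
    linarith

theorem vr_chg (S : BFS Ω A) (f : A →L[ℂ] ℂ) : IsChg S.B (vr S f) :=
  ⟨fun b _ => vr_nonneg S f b, fun b hb c _ hbc => vr_add S f b c hb hbc⟩

theorem vr_lt (S : BFS Ω A) (f : A →L[ℂ] ℂ) (b : Set Ω) (r : ℝ) (h : r < vr S f b) :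
    ∃ y : A, ‖y‖ ≤ 1 ∧ (∀ t ∉ b, S.ev y t = 0) ∧ r < ‖f y‖ := by
  obtain ⟨_, ⟨y, hy, hs, rfl⟩, hr⟩ := exists_lt_of_lt_csSup (vr_ne S f b) h
  exact ⟨y, hy, hs, hr⟩

theorem var : VarStmt := by
  intro Ω A _ _ S
  exact ⟨vr_chg S, vr_mul S, vr_norm S, vr_univ S, vr_add_le S, vr_smul S, vr_lt S⟩

end Pool.Agent.Helper83_DPB.H77
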