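import Pool.Agent.Helper77_DPB.Basic

/-!
Squad DPB (MP_e2cf1f_an), module VAR5: the variation is controlled by the values on indicators.
-/

open Filter Topology Set

namespace Pool.Agent.Helper83_DPB.H77

/-- real sums are controlled by the absolute value of a partial sum -/
theorem sum_abs_le {n : ℕ} (x : Fin n → ℝ) (M : ℝ)
    (h : ∀ J : Finset (Fin n), |∑ i ∈ J, x i| ≤ M) : ∑ i, |x i| ≤ 2 * M := by
  classical
  have h1 := h (Finset.univ.filter fun i => 0 ≤ x i)
  have h2 := h (Finset.univ.filter fun i => ¬ 0 ≤ x i)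
  rw [← Finset.sum_filter_add_sum_filter_not Finset.univ (fun i => 0 ≤ x i)]
  have h3 : ∑ i ∈ Finset.univ.filter (fun i => 0 ≤ x i), |x i| =
      ∑ i ∈ Finset.univ.filter (fun i => 0 ≤ x i), x i :=
    Finset.sum_congr rfl fun i hi => abs_of_nonneg (Finset.mem_filter.1 hi).2
  have h4 : ∑ i ∈ Finset.univ.filter (fun i => ¬ 0 ≤ x i), |x i| =
      -∑ i ∈ Finset.univ.filter (fun i => ¬ 0 ≤ x i), x i := by
    rw [← Finset.sum_neg_distrib]
    exact Finset.sum_congr rfl fun i hi => abs_of_neg (not_le.1 (Finset.mem_filter.1 hi).2)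
  rw [h3, h4]
  have h5 := le_abs_self (∑ i ∈ Finset.univ.filter (fun i => 0 ≤ x i), x i)
  have h6 := neg_le_abs (∑ i ∈ Finset.univ.filter (fun i => ¬ 0 ≤ x i), x i)
  linarith

theorem sum_norm_le {n : ℕ} (x : Fin n → ℂ) (M : ℝ)
    (h : ∀ J : Finset (Fin n), ‖∑ i ∈ J, x i‖ ≤ M) : ∑ i, ‖x i‖ ≤ 4 * M := by
  have h1 : ∑ i, |(x i).re| ≤ 2 * M := sum_abs_le _ M fun J => by
    rw [← Complex.re_sum]
    exact (Complex.abs_re_le_norm _).trans (h J)
  have h2 : ∑ i, |(x i).im| ≤ 2 * M := sum_abs_le _ M fun J => by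
    rw [← Complex.im_sum]
    exact (Complex.abs_im_le_norm _).trans (h J)
  have h3 : ∑ i, ‖x i‖ ≤ ∑ i, (|(x i).re| + |(x i).im|) :=
    Finset.sum_le_sum fun i _ => Complex.norm_le_abs_re_add_abs_im _
  rw [Finset.sum_add_distrib] at h3
  linarith

theorem var5 : Var5Stmt := by
  intro Ω A _ _ S f b r hb hr hrv
  classical
  by_contra hcon
  push Not at hcon
  obtain ⟨y, hy, hs, hfy⟩ := vr_lt S f b (r * (99 / 100)) (by linarith)
  set ε : ℝ := min (1 / 100) (r / (100 * (‖f‖ + 1))) with hε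
  have hf0 : 0 ≤ ‖f‖ := norm_nonneg f
  have hε0 : 0 < ε := lt_min (by norm_num) (by positivity)
  have hε1 : ε ≤ 1 / 100 := min_le_left _ _
  have hε2 : ‖f‖ * ε ≤ r / 100 := by
    have h1 : ε ≤ r / (100 * (‖f‖ + 1)) := min_le_right _ _
    calc ‖f‖ * ε ≤ (‖f‖ + 1) * (r / (100 * (‖f‖ + 1))) := by
          refine mul_le_mul (by linarith) h1 hε0.le (by linarith)
      _ = r / 100 := by field_simp
  obtain ⟨n, p, e, hp, he, hle⟩ := simple_le S f hb hy hs hε0
  have hsum : ∑ i, ‖f (e i)‖ ≤ 4 * (r / 5) := by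
    refine sum_norm_le _ _ fun J => ?_
    have hcB : p ⁻¹' (J : Set (Fin n)) ∩ b ∈ S.B :=
      alg_inter S.alg (alg_pre S.alg p hp J) hb
    have hev : ∀ t, S.ev (∑ i ∈ J, e i) t =
        (p ⁻¹' (J : Set (Fin n)) ∩ b).indicator (fun _ => (1 : ℂ)) t := by
      intro t
      rw [map_sum, Finset.sum_apply]
      by_cases ht : p t ∈ J
      · rw [Finset.sum_eq_single_of_mem (p t) ht]
        · rw [he]
          by_cases hb' : t ∈ b
          · rw [indicator_of_mem (show t ∈ p ⁻¹' {p t} ∩ b from ⟨rfl, hb'⟩),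
              indicator_of_mem (show t ∈ p ⁻¹' (J : Set (Fin n)) ∩ b from ⟨ht, hb'⟩)]
          · rw [indicator_of_notMem (fun h => hb' h.2), indicator_of_notMem (fun h => hb' h.2)]
        · intro i _ hi
          rw [he, indicator_of_notMem (fun h => hi h.1.symm)]
      · rw [indicator_of_notMem (fun h => ht h.1)]
        refine Finset.sum_eq_zero fun i hi => ?_
        rw [he, indicator_of_notMem]
        intro h
        exact ht (by rw [show p t = i from h.1]; exact hi)
    have := hcon _ hcB inter_subset_right _ hev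
    rw [map_sum] at this
    exact this.le
  have h1 : (1 + ε) * ∑ i, ‖f (e i)‖ ≤ (1 + 1 / 100) * (4 * (r / 5)) := by
    refine mul_le_mul (by linarith) hsum (Finset.sum_nonneg fun i _ => norm_nonneg _)
      (by norm_num)
  linarith

end Pool.Agent.Helper83_DPB.H77
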