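import Pool.Agent.Helper77_DPB.Basic

/-!
Squad DPB (MP_e2cf1f_an), module WUC: dominated functionals on weakly unconditionally Cauchy
sequences.
-/

open Filter Topology Set

namespace Pool.Agent.Helper83_DPB.H77

variable {Ω A : Type} [NormedAddCommGroup A] [NormedSpace ℂ A]

/-- a set of the algebra between two level sets -/
theorem level_set (S : BFS Ω A) (z : A) {τ : ℝ} (hτ : 0 < τ) : ∃ b ∈ S.B,
    (∀ t, τ ≤ ‖S.ev z t‖ → t ∈ b) ∧ ∀ t ∈ b, τ / 2 ≤ ‖S.ev z t‖ := by
  classical
  obtain ⟨n, p, w, hp, hw⟩ := S.approx z (τ / 4) (by linarith)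
  refine ⟨p ⁻¹' ((Finset.univ.filter fun i => 3 * τ / 4 ≤ ‖w i‖ : Finset (Fin n)) :
    Set (Fin n)), alg_pre S.alg p hp _, fun t ht => ?_, fun t ht => ?_⟩
  · have h1 := hw t
    have h2 := norm_sub_norm_le (S.ev z t) (w (p t))
    simp only [Finset.coe_filter, Finset.mem_univ, true_and, mem_preimage, mem_setOf_eq]
    linarith
  · have h1 := hw t
    have h2 := norm_sub_norm_le (w (p t)) (S.ev z t)
    rw [norm_sub_rev] at h2
    simp only [Finset.coe_filter, Finset.mem_univ, true_and, mem_preimage, mem_setOf_eq] at ht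
    linarith

theorem wuc : WucStmt := by
  intro Ω A _ _ S m L C z hm hL hC hz ε hε
  classical
  have hu0 : 0 ≤ m univ := hm.nonneg _ (alg_univ S.alg)
  set τ : ℝ := ε / (2 * (L * m univ + 1)) with hτ
  have hLu : 0 ≤ L * m univ := mul_nonneg hL hu0
  have hτ0 : 0 < τ := by positivity
  set δ : ℝ := ε / (2 * (L * C + 1)) with hδ
  have hLC : 0 ≤ L * C := mul_nonneg hL hC
  have hδ0 : 0 < δ := by positivity
  have hex : ∀ j, ∃ b ∈ S.B, (∀ t, τ ≤ ‖S.ev (z j) t‖ → t ∈ b) ∧
      ∀ t ∈ b, τ / 2 ≤ ‖S.ev (z j) t‖ := fun j => level_set S (z j) hτ0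
  choose b hbB hb1 hb2 using hex
  -- the measures tend to zero
  have hsum : ∀ F : Finset ℕ, ∑ j ∈ F, m (b j) ≤ 2 * C / τ * m univ := by
    intro F
    have h := chg_mult S.alg hm F b (fun i _ => hbB i) (2 * C / τ) univ (alg_univ S.alg)
      (fun t _ => by
        rw [le_div_iff₀ hτ0, Finset.sum_mul]
        have h1 : ∑ i ∈ F, (b i).indicator (fun _ => (1 : ℝ)) t * τ ≤
            ∑ i ∈ F, 2 * ‖S.ev (z i) t‖ := by
          refine Finset.sum_le_sum fun i _ => ?_
          by_cases ht : t ∈ b i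
          · rw [indicator_of_mem ht, one_mul]
            have := hb2 i t ht
            linarith
          · rw [indicator_of_notMem ht, zero_mul]
            positivity
        rw [← Finset.mul_sum] at h1
        have := hz t F
        linarith)
    simpa only [inter_univ] using h
  have hev : ∃ j0 : ℕ, ∀ j ≥ j0, m (b j) ≤ δ := by
    have hs : Summable fun j => m (b j) :=
      summable_of_sum_le (fun j => hm.nonneg _ (hbB j)) hsum
    have h1 := hs.tendsto_atTop_zero.eventually (gt_mem_nhds hδ0)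
    obtain ⟨j0, hj0⟩ := eventually_atTop.1 h1
    exact ⟨j0, fun j hj => (hj0 j hj).le⟩
  obtain ⟨j0, hj0⟩ := hev
  refine ⟨j0, fun j hj f hf => ?_⟩
  obtain ⟨z', hz'⟩ := S.cut_ex (b j) (hbB j) (z j)
  have hzj : ∀ t, ‖S.ev (z j) t‖ ≤ C := fun t => by
    have := hz t {j}
    rwa [Finset.sum_singleton] at this
  have hn1 : ‖z'‖ ≤ C := S.le_ev _ C hC fun t => by
    rw [hz']
    by_cases ht : t ∈ b j
    · rw [indicator_of_mem ht]
      exact hzj t
    · rw [indicator_of_notMem ht, norm_zero]
      exact hC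
  have hn2 : ‖z j - z'‖ ≤ τ := S.le_ev _ τ hτ0.le fun t => by
    rw [map_sub, Pi.sub_apply, hz']
    by_cases ht : t ∈ b j
    · rw [indicator_of_mem ht, sub_self, norm_zero]
      exact hτ0.le
    · rw [indicator_of_notMem ht, sub_zero]
      exact (not_le.1 fun h => ht (hb1 j t h)).le
  have h1 : ‖f z'‖ ≤ L * δ * C := by
    refine (vr_mul S f (b j) z' fun t ht => by rw [hz', indicator_of_notMem ht]).trans ?_
    refine mul_le_mul ?_ hn1 (norm_nonneg _) (by positivity)
    exact (hf _ (hbB j)).trans (mul_le_mul_of_nonneg_left (hj0 j hj) hL)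
  have h2 : ‖f (z j - z')‖ ≤ L * m univ * τ := by
    refine (f.le_opNorm _).trans ?_
    refine mul_le_mul ?_ hn2 (norm_nonneg _) hLu
    rw [← vr_univ S f]
    exact hf _ (alg_univ S.alg)
  have h3 : L * δ * C ≤ ε / 2 := by
    have : L * δ * C = (L * C) / (L * C + 1) * (ε / 2) := by
      rw [hδ]
      field_simp
    rw [this]
    refine mul_le_of_le_one_left (by linarith) ?_
    rw [div_le_one (by linarith)]
    linarith
  have h4 : L * m univ * τ ≤ ε / 2 := by
    have : L * m univ * τ = (L * m univ) / (L * m univ + 1) * (ε / 2) := by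
      rw [hτ]
      field_simp
    rw [this]
    refine mul_le_of_le_one_left (by linarith) ?_
    rw [div_le_one (by linarith)]
    linarith
  have h5 : f (z j) = f z' + f (z j - z') := by
    rw [map_sub]
    ring
  rw [h5]
  have := norm_add_le (f z') (f (z j - z'))
  linarith

end Pool.Agent.Helper83_DPB.H77
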